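import Pool.Agent.Run7.h717.SA.Iface

/-!
# Project SA (helper717): the piece FIN
-/

set_option autoImplicit false

namespace Pool.Agent.Run7.h957.SA

open MeasureTheory ProbabilityTheory Filter Topology
open scoped ENNReal
open Pool.Agent.Run7.h717.SA

theorem ang_mem {d : ℕ} (x : Fin d → E d) : ang x ∈ Set.Icc (0:ℝ) 1 :=
  ⟨measureReal_nonneg, measureReal_le_one⟩

/-- the measures on the line -/
noncomputable def rho (d : ℕ) : Measure ℝ :=
  ((2:ℝ≥0∞) ^ d * d) • ((Measure.pi fun _ : Fin d => unif d).map solid)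

theorem rho_zero : rho 0 = 0 := by
  unfold rho
  rw [Nat.cast_zero, mul_zero, zero_smul]

theorem rho_pos (hS : S_SPH) {d : ℕ} (hd : 1 ≤ d) :
    rho d = ((2:ℝ≥0∞) ^ d * d) • ((GG d d).map (fun x => ang x)) := by
  unfold rho
  rw [(hS d hd).2.2]

theorem const_ne_top (d : ℕ) : ((2:ℝ≥0∞) ^ d * d) ≠ ∞ :=
  ENNReal.mul_ne_top (ENNReal.pow_ne_top ENNReal.ofNat_ne_top) (ENNReal.natCast_ne_top _)

instance (d : ℕ) : IsProbabilityMeasure (GG d d) := by
  unfold GG
  infer_instance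

theorem rho_fin (hS : S_SPH) (d : ℕ) : IsFiniteMeasure (rho d) := by
  rcases Nat.eq_zero_or_pos d with rfl | hd
  · rw [rho_zero]
    infer_instance
  · rw [rho_pos hS hd]
    have h1 := Measure.isProbabilityMeasure_map (hS d hd).2.1
    exact Measure.smul_finite _ (const_ne_top d)

theorem rho_supp (hS : S_SPH) (d : ℕ) : rho d (Set.Icc 0 1)ᶜ = 0 := by
  rcases Nat.eq_zero_or_pos d with rfl | hd
  · rw [rho_zero]
    rfl
  · rw [rho_pos hS hd, Measure.smul_apply,
      Measure.map_apply_of_aemeasurable (hS d hd).2.1 measurableSet_Icc.compl]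
    have h1 : (fun x : Fin d → E d => ang x) ⁻¹' (Set.Icc 0 1)ᶜ = ∅ := by
      ext x
      simp only [Set.mem_preimage, Set.mem_compl_iff, Set.mem_empty_iff_false, iff_false, not_not]
      exact ang_mem x
    rw [h1, measure_empty, smul_zero]

theorem rho_mom (hS : S_SPH) {d : ℕ} (hd : 1 ≤ d) (k : ℕ) :
    ∫ x, x ^ k ∂(rho d) = (d : ℝ) * 2 ^ d * mm d k := by
  rw [rho_pos hS hd, integral_smul_measure,
    integral_map (hS d hd).2.1 (by fun_prop)]
  rw [ENNReal.toReal_mul, ENNReal.toReal_pow, ENNReal.toReal_natCast, smul_eq_mul]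
  unfold mm
  rw [ENNReal.toReal_ofNat]
  ring

theorem comap_rho (d : ℕ) : (rho d).comap (Subtype.val : Set.Ioi (0:ℝ) → ℝ) = muD d := by
  unfold rho muD
  have he : MeasurableEmbedding (Subtype.val : Set.Ioi (0:ℝ) → ℝ) :=
    MeasurableEmbedding.subtype_coe measurableSet_Ioi
  ext s hs
  rw [he.comap_apply, Measure.smul_apply, Measure.smul_apply, he.comap_apply]

theorem t_FIN : S_FIN := by
  intro hS hY hL hM
  refine ⟨fun d hd => (hS d hd).1, ?_⟩
  obtain ⟨μ, h1, h2, h3⟩ := hM rho (rho_fin hS) (rho_supp hS) (by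
    intro k hk
    obtain ⟨m, rfl⟩ : ∃ m, k = m + 1 := ⟨k - 1, by omega⟩
    obtain ⟨c, hc, hlim⟩ := hL m (by omega)
    refine ⟨c, hc, hlim.congr' ?_⟩
    filter_upwards [eventually_ge_atTop 1] with d hd
    rw [rho_mom hS hd, hY d (m + 1) hd (by omega)])
  refine ⟨μ, h1, h2, fun f => ?_⟩
  refine (h3 f).congr fun d => ?_
  rw [comap_rho]

end Pool.Agent.Run7.h957.SA
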